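import Pool.Agent.Q289.LD.Led
import Pool.Agent.Q73.KL.Fin

/-!
# The isoperimetric inequality from the Poincare inequality in the extended form; halfspaces
-/

set_option autoImplicit false

namespace Q289.LD

open MeasureTheory Set Filter Topology
open scoped ENNReal InnerProductSpace
open Pool.Agent.W695.KH (Eu EU Sm Pot WPo)
open Pool.Agent.Q73.KL (Gu Gu_eq Gu_cont half_mom hyp_null var_of_lint)
open Pool.Agent.Q188.SB (bdr)

variable {κ : Type} [Fintype κ]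

/-- **Poincare implies the isoperimetric inequality**, for log-concave probability densities -/
theorem led_evar (h : S_LED) {ρ : Eu κ → ℝ} (hρ : Den ρ) {C : ℝ} (hC : 0 < C) {μ : Measure (Eu κ)}
    (hμ : μ = volume.withDensity fun x => ENNReal.ofReal (ρ x))
    (hP : ∀ f : Eu κ → ℝ, ContDiff ℝ 1 f → (∀ x, |f x| ≤ 1) →
      ProbabilityTheory.evariance f μ ≤
        ENNReal.ofReal C * ∫⁻ x, ENNReal.ofReal (‖fderiv ℝ f x‖ ^ 2) ∂μ)
    {S : Set (Eu κ)} (hS : MeasurableSet S) :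
    μ S * (1 - μ S) ≤ ENNReal.ofReal (7 * Real.sqrt C) * bdr μ S := by
  refine h κ ρ hρ C hC (fun f hf hb hL => ?_) μ hμ S hS
  obtain ⟨L, hL⟩ := hL
  have hpr : IsProbabilityMeasure μ := by rw [hμ]; exact prob_mu hρ
  have h5 := hP f hf hb
  have hL2 : MemLp f 2 μ := by
    refine MemLp.of_bound hf.continuous.aestronglyMeasurable 1 (Eventually.of_forall fun x => ?_)
    rw [Real.norm_eq_abs]
    exact hb x
  have hgi : Integrable (fun x => ‖fderiv ℝ f x‖ ^ 2) μ := by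
    refine Integrable.of_bound
      ((hf.continuous_fderiv (by norm_num)).norm.pow 2).aestronglyMeasurable (L ^ 2)
      (Eventually.of_forall fun x => ?_)
    rw [Real.norm_eq_abs, abs_of_nonneg (sq_nonneg _)]
    exact pow_le_pow_left₀ (norm_nonneg _) (hL x) 2
  rw [← ofReal_integral_eq_lintegral_ofReal hgi (Eventually.of_forall fun x => by positivity),
    ← ENNReal.ofReal_mul hC.le, ← hL2.ofReal_variance_eq] at h5
  have h6 := (ENNReal.ofReal_le_ofReal_iff (mul_nonneg hC.le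
    (integral_nonneg fun x => by positivity))).1 h5
  rw [ProbabilityTheory.variance_eq_sub hL2] at h6
  have e1 : ∀ g : Eu κ → ℝ, ∫ x, g x ∂μ = ∫ x, g x * ρ x := fun g => by
    rw [hμ]; exact integral_mu hρ g
  have e2 : ∫ x, (f ^ 2) x ∂μ = ∫ x, f x ^ 2 * ρ x := e1 fun x => f x ^ 2
  rw [e2, e1, e1 fun x => ‖fderiv ℝ f x‖ ^ 2] at h6
  exact h6

/-- linear functionals are square integrable -/
theorem memLp_lin (hl : S_LIM) {ρ : Eu κ → ℝ} (hρ : Den ρ) {μ : Measure (Eu κ)}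
    (hμ : μ = volume.withDensity fun x => ENNReal.ofReal (ρ x)) (θ : Eu κ) :
    MemLp (fun x => ⟪θ, x⟫_ℝ) 2 μ := by
  have hm : Continuous fun x : Eu κ => ⟪θ, x⟫_ℝ := by fun_prop
  rw [memLp_two_iff_integrable_sq hm.aestronglyMeasurable]
  have h1 := (hl κ ρ hρ).2.1
  have h2 : Integrable (fun x => ⟪θ, x⟫_ℝ ^ 2 * ρ x) := by
    refine (h1.const_mul (‖θ‖ ^ 2)).mono' ((hm.pow 2).aestronglyMeasurable.mul
      hρ.meas.aestronglyMeasurable) (Eventually.of_forall fun x => ?_)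
    have h3 : |⟪θ, x⟫_ℝ| ≤ ‖θ‖ * ‖x‖ := abs_real_inner_le_norm _ _
    have h4 : ⟪θ, x⟫_ℝ ^ 2 ≤ ‖θ‖ ^ 2 * ‖x‖ ^ 2 := by
      rw [← sq_abs, ← mul_pow]
      exact pow_le_pow_left₀ (abs_nonneg _) h3 2
    rw [Real.norm_eq_abs, abs_of_nonneg (mul_nonneg (sq_nonneg _) (hρ.nonneg x)), ← mul_assoc]
    refine mul_le_mul_of_nonneg_right ?_ (hρ.nonneg x)
    nlinarith [sq_nonneg ‖θ‖]
  rw [hμ, integrable_withDensity_iff_integrable_smul' hρ.meas.ennreal_ofReal
    (Eventually.of_forall fun x => ENNReal.ofReal_lt_top)]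
  refine h2.congr (Eventually.of_forall fun x => ?_)
  simp only [ENNReal.toReal_ofReal (hρ.nonneg x), smul_eq_mul]
  ring

/-- the halfspace inequality bounds the variances -/
theorem half_gen {μ : Measure (Eu κ)} [IsProbabilityMeasure μ] (hac : μ ≪ volume) {τ : ℝ} (hτ : 0 < τ)
    (H : ∀ (u : Eu κ) (b : ℝ), u ≠ 0 →
      ENNReal.ofReal τ * min (μ {x | ⟪u, x⟫_ℝ ≤ b}) (1 - μ {x | ⟪u, x⟫_ℝ ≤ b}) ≤
        bdr μ {x | ⟪u, x⟫_ℝ ≤ b}) {u : Eu κ} (hu : ‖u‖ = 1) :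
    MemLp (fun x => ⟪u, x⟫_ℝ) 2 μ ∧ ProbabilityTheory.variance (fun x => ⟪u, x⟫_ℝ) μ ≤ 8 / τ ^ 2 := by
  have hu0 : u ≠ 0 := by
    rw [← norm_ne_zero_iff, hu]
    exact one_ne_zero
  have h0 : ∀ b, μ {x | ⟪u, x⟫_ℝ = b} = 0 := fun b => hac (hyp_null hu b)
  obtain ⟨m, hm⟩ : ∃ m, Gu μ u m = 1 / 2 := by
    have hmeas : Measurable fun x : Eu κ => ⟪u, x⟫_ℝ := by fun_prop
    have hpm : IsProbabilityMeasure (μ.map fun x => ⟪u, x⟫_ℝ) :=
      Measure.isProbabilityMeasure_map hmeas.aemeasurable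
    have e : ∀ b, Gu μ u b = 1 - ProbabilityTheory.cdf (μ.map fun x => ⟪u, x⟫_ℝ) b := by
      intro b
      rw [Gu_eq, ProbabilityTheory.cdf_eq_real, Measure.real, Measure.map_apply hmeas measurableSet_Iic]
      rfl
    have t1 : Tendsto (Gu μ u) atBot (𝓝 1) := by
      have := (tendsto_const_nhds (x := (1 : ℝ))).sub
        (ProbabilityTheory.tendsto_cdf_atBot (μ.map fun x => ⟪u, x⟫_ℝ))
      rw [sub_zero] at this
      exact this.congr fun b => (e b).symm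
    have t2 : Tendsto (Gu μ u) atTop (𝓝 0) := by
      have := (tendsto_const_nhds (x := (1 : ℝ))).sub
        (ProbabilityTheory.tendsto_cdf_atTop (μ.map fun x => ⟪u, x⟫_ℝ))
      rw [sub_self] at this
      exact this.congr fun b => (e b).symm
    obtain ⟨a, ha⟩ := (t1.eventually (lt_mem_nhds (show (1 / 2 : ℝ) < 1 by norm_num))).exists
    obtain ⟨b, hb⟩ := (t2.eventually (gt_mem_nhds (show (0 : ℝ) < 1 / 2 by norm_num))).exists
    obtain ⟨m, hm⟩ := mem_range_of_exists_le_of_exists_ge (Gu_cont (μ := μ) (u := u) h0)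
      ⟨b, hb.le⟩ ⟨a, ha.le⟩
    exact ⟨m, hm⟩
  have h2 := half_mom hu h0 hτ (fun b => H u b hu0) (fun b => H (-u) b (neg_ne_zero.2 hu0)) hm
  obtain ⟨h3, h4⟩ := var_of_lint (f := fun x : Eu κ => ⟪u, x⟫_ℝ) (by fun_prop) (by positivity) h2
  refine ⟨h3, ?_⟩
  rw [ProbabilityTheory.variance_eq_sub h3]
  exact h4

end Q289.LD
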