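import Pool.Agent.Q289.LD.Stm
import Pool.Agent.W695.KH.Final

/-!
# From Poincare to the isoperimetric inequality for log-concave measures: assembly
-/

set_option autoImplicit false

namespace Q289.LD

open MeasureTheory Set Filter Topology
open scoped ENNReal InnerProductSpace
open Pool.Agent.W695.KH (Eu EU Sm Pot WPo)

variable {κ : Type} [Fintype κ]

theorem pot (h1 : S_EXP) (h2 : S_SUP) (h3 : S_CVX) (h4 : S_SUB) (h5 : S_LIM) : S_POT := by
  intro κ _ ρ hρ A hA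
  obtain ⟨M, c, hE⟩ := h1 κ ρ hρ
  obtain ⟨hpos, hge, -, -, -⟩ := h2 κ ρ hρ M c hE A hA
  obtain ⟨hc1, hc2⟩ := h3 κ ρ hρ M c hE A hA
  obtain ⟨b, hb1, hb2, hb3⟩ := h4 κ _ A hA hc1 hc2
  obtain ⟨hcont, hint⟩ := (h5 κ ρ hρ).1 A hA
  have hi : Integrable (sc ρ A) := by
    refine hint.mono' hcont.aestronglyMeasurable (Eventually.of_forall fun x => ?_)
    rw [Real.norm_eq_abs, abs_of_pos (hpos x)]
    nlinarith [hpos x, mul_nonneg (sq_nonneg ‖x‖) (hpos x).le]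
  have hZ : 0 < ∫ y, sc ρ A y := by
    have hle : ∫ y, ρ y ≤ ∫ y, sc ρ A y := by
      refine integral_mono_of_nonneg (Eventually.of_forall hρ.nonneg) hi (Eventually.of_forall hge)
    rw [hρ.mass] at hle
    linarith
  have hexp : ∀ x, Real.exp (-Us ρ A x) = sc ρ A x / ∫ y, sc ρ A y := by
    intro x
    unfold Us
    rw [neg_add, neg_neg, ← sub_eq_add_neg, Real.exp_sub, Real.exp_log (hpos x), Real.exp_log hZ]
  have hbc : Continuous b := by
    have : LipschitzWith (Real.toNNReal A) b := LipschitzWith.of_dist_le_mul fun x y => by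
      rw [dist_eq_norm, dist_eq_norm, Real.coe_toNNReal A hA.le]
      exact hb2 x y
    exact this.continuous
  refine ⟨⟨b, hA, ?_, hb2, hb3, ?_⟩, hexp, hZ⟩
  · intro x
    have := (hb1 x).add_const (Real.log (∫ y, sc ρ A y))
    exact this
  · simp only [hexp]
    have hK : ∀ x, 1 + ‖b x‖ ^ 2 ≤ (1 + 2 * ‖b 0‖ ^ 2 + 2 * A ^ 2) * (1 + ‖x‖ ^ 2) := by
      intro x
      have e1 : ‖b x‖ ≤ ‖b 0‖ + A * ‖x‖ := by
        have := hb2 x 0
        rw [sub_zero] at this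
        have e2 := norm_le_norm_add_norm_sub' (b x) (b 0)
        linarith
      have e3 : ‖b x‖ ^ 2 ≤ (‖b 0‖ + A * ‖x‖) ^ 2 := pow_le_pow_left₀ (norm_nonneg _) e1 2
      nlinarith [sq_nonneg (‖b 0‖ - A * ‖x‖), sq_nonneg ‖x‖, sq_nonneg ‖b 0‖,
        mul_nonneg (sq_nonneg ‖b 0‖) (sq_nonneg ‖x‖), sq_nonneg A]
    refine ((hint.const_mul (1 + 2 * ‖b 0‖ ^ 2 + 2 * A ^ 2)).div_const (∫ y, sc ρ A y)).mono' ?_
      (Eventually.of_forall fun x => ?_)
    · exact ((continuous_const.add (hbc.norm.pow 2)).mul (hcont.div_const _)).aestronglyMeasurable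
    · have h0 : 0 ≤ (1 + ‖b x‖ ^ 2) * (sc ρ A x / ∫ y, sc ρ A y) :=
        mul_nonneg (by positivity) (div_nonneg (hpos x).le hZ.le)
      rw [Real.norm_eq_abs, abs_of_nonneg h0]
      have := mul_le_mul_of_nonneg_right (hK x) (div_nonneg (hpos x).le hZ.le)
      calc (1 + ‖b x‖ ^ 2) * (sc ρ A x / ∫ y, sc ρ A y)
          ≤ (1 + 2 * ‖b 0‖ ^ 2 + 2 * A ^ 2) * (1 + ‖x‖ ^ 2) * (sc ρ A x / ∫ y, sc ρ A y) := this
        _ = _ := by ring

theorem EU_eq (h : S_POT) {ρ : Eu κ → ℝ} (hρ : Den ρ) {A : ℝ} (hA : 0 < A) (g : Eu κ → ℝ) :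
    EU (Us ρ A) g = (∫ x, g x * sc ρ A x) / ∫ y, sc ρ A y := by
  obtain ⟨-, h2, -⟩ := h κ ρ hρ A hA
  unfold EU
  simp only [h2]
  rw [← integral_div]
  refine integral_congr_ae (Eventually.of_forall fun x => ?_)
  simp only
  ring

theorem EU_one (h : S_POT) {ρ : Eu κ → ℝ} (hρ : Den ρ) {A : ℝ} (hA : 0 < A) :
    EU (Us ρ A) (fun _ => 1) = 1 := by
  rw [EU_eq h hρ hA]
  simp only [one_mul]
  exact div_self (h κ ρ hρ A hA).2.2.ne'

theorem lmu (h : S_POT) (h5 : S_LIM) : S_LMU := by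
  intro κ _ ρ hρ g B hg hB
  have hl := (h5 κ ρ hρ).2.2
  have h1 := hl g B hg hB
  have h2 := hl (fun _ => 1) 1 continuous_const (fun x => by
    rw [abs_one, one_mul]
    nlinarith [sq_nonneg ‖x‖])
  simp only [one_mul, hρ.mass] at h2
  have h3 := h1.div h2 one_ne_zero
  rw [div_one] at h3
  refine h3.congr' ?_
  filter_upwards [eventually_gt_atTop (0 : ℝ)] with A hA
  exact (EU_eq h hρ hA g).symm

theorem bdy (hp : S_POT) (hl : S_LMU) : S_BDY := by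
  intro κ _ ρ hρ δ c hδ hc0 hW f L M hf hfb hV
  have hc := @Pool.Agent.W695.KH.core
  have hcont : Continuous f := hf.diff.continuous
  have hL : 0 ≤ L := (norm_nonneg _).trans (hf.grad 0)
  have hgc : Continuous fun x => ‖fderiv ℝ f x‖ :=
    (hf.diff.continuous_fderiv one_ne_zero).norm
  have ht1 := hl κ ρ hρ f 1 hcont (fun x => by
    have := hf.bdd x
    nlinarith [sq_nonneg ‖x‖])
  have ht2 := hl κ ρ hρ (fun x => f x ^ 2) 1 (hcont.pow 2) (fun x => by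
    have h1 := hf.bdd x
    have h2 : |f x ^ 2| ≤ 1 := by
      rw [abs_pow]
      exact pow_le_one₀ (abs_nonneg _) h1
    nlinarith [sq_nonneg ‖x‖])
  have ht3 := hl κ ρ hρ (fun x => ‖fderiv ℝ f x‖) L hgc (fun x => by
    have h1 := hf.grad x
    rw [abs_norm]
    nlinarith [sq_nonneg ‖x‖, mul_nonneg hL (sq_nonneg ‖x‖)])
  have hv : Tendsto (fun A : ℝ => EU (Us ρ A) (fun x => f x ^ 2) - EU (Us ρ A) f ^ 2) atTop
      (𝓝 (Vr ρ f)) := ht2.sub (ht1.pow 2)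
  have hr : Tendsto (fun A : ℝ => 4 / c * (EU (Us ρ A) fun x => ‖fderiv ℝ f x‖) ^ 2) atTop
      (𝓝 (4 / c * (∫ x, ‖fderiv ℝ f x‖ * ρ x) ^ 2)) := (ht3.pow 2).const_mul _
  refine le_of_tendsto_of_tendsto hv hr ?_
  filter_upwards [hW, hv.eventually (lt_mem_nhds hV), eventually_gt_atTop 0] with A hA1 hA2 hA3
  obtain ⟨⟨b, hb⟩, -, -⟩ := hp κ ρ hρ A hA3
  have hA4 := EU_one hp hρ hA3
  obtain ⟨m, hm⟩ : ∃ m, m = EU (Us ρ A) f := ⟨_, rfl⟩
  have hmb : |m| ≤ 1 / 2 := hm ▸ Pool.Agent.W880.KH.EU_le (Us ρ A) hA4 f hcont (1 / 2) hfb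
  have hfd : ∀ x, fderiv ℝ (fun y => f y - m) x = fderiv ℝ f x := by
    intro x
    rw [fderiv_sub_const]
  have hS : Sm (fun x => f x - m) L M := by
    refine ⟨?_, hf.diff.sub contDiff_const, ?_, ?_⟩
    · intro x
      have h1 := hfb x
      have h2 : |f x - m| ≤ |f x| + |m| := abs_sub _ _
      linarith
    · intro x
      rw [hfd]
      exact hf.grad x
    · intro x y
      rw [hfd, hfd]
      exact hf.lip x y
  have h1 : EU (Us ρ A) (fun x => f x - m) = 0 := by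
    rw [Pool.Agent.W880.KH.EU_sub_const (Us ρ A) hA4 f hcont (1 / 2) hfb m, hm, sub_self]
  have h2 : EU (Us ρ A) (fun x => (f x - m) ^ 2) =
      EU (Us ρ A) (fun x => f x ^ 2) - EU (Us ρ A) f ^ 2 := by
    rw [Pool.Agent.W880.KH.EU_sub_sq (Us ρ A) hA4 f hcont (1 / 2) hfb m, ← hm]
    ring
  have h3 := hc κ (Us ρ A) b A hb hA4 δ c hδ hc0 hA1 (fun x => f x - m) L M hS h1
    (by rw [h2]; exact hA2)
  rw [h2] at h3
  simp only [hfd] at h3
  exact h3

end Q289.LD
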