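import Pool.Agent.Q289.LD.Ord
import Pool.Agent.Q38.LD.Cvx
import Pool.Agent.Q38.LD.Lim
import Pool.Agent.Q38.LD.Sub
import Pool.Agent.Q124.LD.Cae
import Pool.Agent.Q124.LD.Exp
import Pool.Agent.Q68.LD.Sup
import Pool.Agent.Q162.LD.MNK

/-! The statements of project LD, all hypotheses discharged. -/

namespace Q289.LD

theorem tCVX : S_CVX := Q38.LD.Cvx.cvx Pool.Agent.Q68.LD.sup

theorem tLIM : S_LIM :=
  Q38.LD.Lim.lim Pool.Agent.Q124.LD.exp Pool.Agent.Q124.LD.cae Pool.Agent.Q68.LD.sup tCVX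

theorem tPOT : S_POT :=
  pot Pool.Agent.Q124.LD.exp Pool.Agent.Q68.LD.sup tCVX Q38.LD.Sub.sub tLIM

theorem tLED : S_LED :=
  led tPOT Pool.Agent.Q124.LD.exp Pool.Agent.Q68.LD.sup tLIM Pool.Agent.Q162.LD.mnk

end Q289.LD
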