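import Pool.Agent.Q289.LD.Fin

/-!
# From a Poincare inequality in terms of the covariance to the exact form of the KLS conjecture
-/

set_option autoImplicit false

namespace Q289.LD

open MeasureTheory Set Filter Topology
open scoped ENNReal InnerProductSpace
open Pool.Agent.W695.KH (Eu)
open Pool.Agent.Q188.SB (bdr)

variable {κ : Type} [Fintype κ]

/-- the KLS inequality in the Poincare form, with the constant `k` -/
def KP (μ : Measure (Eu κ)) (k : ℝ) : Prop := ∀ s : ℝ, 0 < s →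
  (∀ θ : Eu κ, ProbabilityTheory.evariance (fun x => ⟪θ, x⟫_ℝ) μ ≤ ENNReal.ofReal (s * ‖θ‖ ^ 2)) →
  ∀ f : Eu κ → ℝ, ContDiff ℝ 1 f → ProbabilityTheory.evariance f μ ≤
    ENNReal.ofReal (k * s) * ∫⁻ x, ENNReal.ofReal (‖fderiv ℝ f x‖ ^ 2) ∂μ

/-- the variance form of the hypothesis gives the extended form -/
theorem cov_ev {ρ : Eu κ → ℝ} (hρ : Den ρ) {μ : Measure (Eu κ)}
    (hμ : μ = volume.withDensity fun x => ENNReal.ofReal (ρ x)) {s : ℝ}
    (hcov : ∀ θ : Eu κ, ‖θ‖ = 1 → ProbabilityTheory.variance (fun x => ⟪x, θ⟫_ℝ) μ ≤ s) (θ : Eu κ) :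
    ProbabilityTheory.evariance (fun x => ⟪θ, x⟫_ℝ) μ ≤ ENNReal.ofReal (s * ‖θ‖ ^ 2) := by
  have hp : IsProbabilityMeasure μ := by rw [hμ]; exact prob_mu hρ
  have hL2 := memLp_lin tLIM hρ hμ θ
  rw [← hL2.ofReal_variance_eq]
  refine ENNReal.ofReal_le_ofReal ?_
  by_cases h0 : θ = 0
  · subst h0
    have : (fun x : Eu κ => ⟪(0 : Eu κ), x⟫_ℝ) = fun _ => 0 := by
      funext x; simp
    rw [this, norm_zero]
    have e0 : ProbabilityTheory.variance (fun _ : Eu κ => (0 : ℝ)) μ = 0 :=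
      ProbabilityTheory.variance_zero _
    rw [e0]
    simp
  have hn0 : 0 < ‖θ‖ := norm_pos_iff.2 h0
  have h5 := hcov (‖θ‖⁻¹ • θ) (by rw [norm_smul, norm_inv, norm_norm, inv_mul_cancel₀ hn0.ne'])
  have e1 : (fun x : Eu κ => ⟪θ, x⟫_ℝ) = fun x => ‖θ‖ * ⟪x, ‖θ‖⁻¹ • θ⟫_ℝ := by
    funext x
    rw [real_inner_smul_right, ← mul_assoc, mul_inv_cancel₀ hn0.ne', one_mul, real_inner_comm]
  rw [e1, ProbabilityTheory.variance_const_mul, mul_comm s]
  exact mul_le_mul_of_nonneg_left h5 (sq_nonneg _)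

/-- **the exact form of S13343** -/
theorem gen3 {ρ : Eu κ → ℝ} (hρ : Den ρ) {μ : Measure (Eu κ)}
    (hμ : μ = volume.withDensity fun x => ENNReal.ofReal (ρ x)) {k : ℝ} (hk : 0 < k) (H : KP μ k)
    {s : ℝ} (hs : 0 < s)
    (hcov : ∀ θ : Eu κ, ‖θ‖ = 1 → ProbabilityTheory.variance (fun x => ⟪x, θ⟫_ℝ) μ ≤ s)
    {S : Set (Eu κ)} (hS : MeasurableSet S) :
    ENNReal.ofReal (1 / (14 * Real.sqrt k) / Real.sqrt s) * min (μ S) (μ Sᶜ) ≤ bdr μ S := by
  have hp : IsProbabilityMeasure μ := by rw [hμ]; exact prob_mu hρ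
  have hks : 0 < k * s := mul_pos hk hs
  have h1 := led_evar tLED hρ hks hμ (fun f hf _ => H s hs (cov_ev hρ hμ hcov) f hf) hS
  have h2 : min (μ S) (μ Sᶜ) ≤ 2 * (μ S * (1 - μ S)) := by
    rw [prob_compl_eq_one_sub hS]
    exact Q289.OP.min_le_two_mul prob_le_one
  have hsq : 0 < Real.sqrt s := Real.sqrt_pos.2 hs
  have hkq : 0 < Real.sqrt k := Real.sqrt_pos.2 hk
  calc ENNReal.ofReal (1 / (14 * Real.sqrt k) / Real.sqrt s) * min (μ S) (μ Sᶜ)
      ≤ ENNReal.ofReal (1 / (14 * Real.sqrt k) / Real.sqrt s) *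
          (2 * (ENNReal.ofReal (7 * Real.sqrt (k * s)) * bdr μ S)) :=
        mul_le_mul_right (h2.trans (mul_le_mul_right h1 _)) _
    _ = (ENNReal.ofReal (1 / (14 * Real.sqrt k) / Real.sqrt s) *
          (2 * ENNReal.ofReal (7 * Real.sqrt (k * s)))) * bdr μ S := by ring
    _ = bdr μ S := by
        rw [show (2 : ℝ≥0∞) = ENNReal.ofReal 2 by norm_num, ← ENNReal.ofReal_mul (by norm_num),
          ← ENNReal.ofReal_mul (by positivity), Real.sqrt_mul hk.le]
        have : 1 / (14 * Real.sqrt k) / Real.sqrt s * (2 * (7 * (Real.sqrt k * Real.sqrt s))) = 1 := by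
          field_simp; norm_num
        rw [this, ENNReal.ofReal_one, one_mul]

/-- **the halfspace form** -/
theorem gen4 {ρ : Eu κ → ℝ} (hρ : Den ρ) {μ : Measure (Eu κ)}
    (hμ : μ = volume.withDensity fun x => ENNReal.ofReal (ρ x)) {k : ℝ} (hk : 0 < k) (H : KP μ k)
    (t : ℝ≥0∞) (Hh : ∀ (u : Eu κ) (r : ℝ), u ≠ 0 →
      t * min (μ {x | ⟪u, x⟫_ℝ ≤ r}) (μ {x | ⟪u, x⟫_ℝ ≤ r}ᶜ) ≤ bdr μ {x | ⟪u, x⟫_ℝ ≤ r})
    {S : Set (Eu κ)} (hS : MeasurableSet S) :
    ENNReal.ofReal (1 / (50 * Real.sqrt k)) * t * min (μ S) (μ Sᶜ) ≤ bdr μ S := by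
  have hp : IsProbabilityMeasure μ := by rw [hμ]; exact prob_mu hρ
  have hac : μ ≪ volume := by
    rw [hμ]
    exact withDensity_absolutelyContinuous _ _
  have hkq : 0 < Real.sqrt k := Real.sqrt_pos.2 hk
  set X := min (μ S) (μ Sᶜ) with hX
  set Bd := bdr μ S with hBd
  have hX1 : X ≤ 1 := (min_le_left _ _).trans prob_le_one
  have key : ∀ τ : ℝ, 0 < τ → ENNReal.ofReal τ ≤ t →
      ENNReal.ofReal (1 / (50 * Real.sqrt k)) * ENNReal.ofReal τ * X ≤ Bd := by
    intro τ hτ hτt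
    have h5 := gen3 hρ hμ hk H (s := 8 / τ ^ 2) (by positivity) (fun θ hθ => by
      have h6 := (half_gen hac hτ (fun u r hu => by
        have h7 := Hh u r hu
        rw [prob_compl_eq_one_sub (measurableSet_le (by fun_prop) measurable_const)] at h7
        exact (mul_le_mul' hτt le_rfl).trans h7) hθ).2
      have e2 : (fun x : Eu κ => ⟪x, θ⟫_ℝ) = fun x => ⟪θ, x⟫_ℝ :=
        funext fun x => real_inner_comm _ _
      rw [e2]
      exact h6) hS
    refine le_trans (mul_le_mul_left ?_ _) h5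
    rw [← ENNReal.ofReal_mul (by positivity)]
    refine ENNReal.ofReal_le_ofReal ?_
    have e2 : Real.sqrt 8 ≤ 3 := by
      rw [Real.sqrt_le_left (by norm_num)]
      norm_num
    have e3 : Real.sqrt (8 / τ ^ 2) = Real.sqrt 8 / τ := by
      rw [Real.sqrt_div (by norm_num), Real.sqrt_sq hτ.le]
    have e4 : 0 < Real.sqrt 8 := Real.sqrt_pos.2 (by norm_num)
    rw [e3, div_div_eq_mul_div, le_div_iff₀ e4]
    have e5 : 1 / (14 * Real.sqrt k) * τ = (50 / 14) * (1 / (50 * Real.sqrt k) * τ) := by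
      field_simp
    rw [e5]
    have e6 : 0 < 1 / (50 * Real.sqrt k) * τ := by positivity
    nlinarith
  by_cases htt : t = ⊤
  · subst htt
    by_cases hm : X = 0
    · rw [hm, mul_zero]
      exact bot_le
    have hmt : X ≠ ⊤ := ne_top_of_le_ne_top ENNReal.one_ne_top hX1
    have hm0 : 0 < X.toReal := ENNReal.toReal_pos hm hmt
    have h2 : Bd = ⊤ := by
      refine ENNReal.eq_top_of_forall_nnreal_le fun r => ?_
      have h3 := key (50 * Real.sqrt k * (r + 1) / X.toReal) (by positivity) le_top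
      rw [← ENNReal.ofReal_toReal hmt, ← ENNReal.ofReal_mul (by positivity),
        ← ENNReal.ofReal_mul (by positivity), ENNReal.toReal_ofReal hm0.le] at h3
      refine le_trans ?_ h3
      rw [← ENNReal.ofReal_coe_nnreal]
      refine ENNReal.ofReal_le_ofReal ?_
      have : 1 / (50 * Real.sqrt k) * (50 * Real.sqrt k * ((r : ℝ) + 1) / X.toReal) * X.toReal =
          r + 1 := by field_simp
      rw [this]
      linarith
    rw [h2]
    exact le_top
  · by_cases h0 : t = 0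
    · rw [h0, mul_zero, zero_mul]
      exact bot_le
    · have h4 := key t.toReal (ENNReal.toReal_pos h0 htt) (ENNReal.ofReal_toReal htt).le
      rwa [ENNReal.ofReal_toReal htt] at h4

end Q289.LD
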