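import Pool.Agent.Q289.LD.Asm

/-!
# From Poincare to the isoperimetric inequality for log-concave measures: end of the proof
-/

set_option autoImplicit false

namespace Q289.LD

open MeasureTheory Set Filter Topology
open scoped ENNReal InnerProductSpace
open Pool.Agent.W695.KH (Eu EU Sm Pot WPo)

variable {κ : Type} [Fintype κ]

theorem Den.integrable {ρ : Eu κ → ℝ} (hρ : Den ρ) : Integrable ρ := by
  by_contra h
  have h1 := hρ.mass
  rw [integral_undef h] at h1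
  norm_num at h1

theorem int_mul {w : Eu κ → ℝ} (hw : Integrable w) {g : Eu κ → ℝ} (hg : Continuous g) {B : ℝ}
    (hB : ∀ x, |g x| ≤ B) : Integrable fun x => g x * w x :=
  hw.bdd_mul (c := B) hg.aestronglyMeasurable (Eventually.of_forall fun x => by
    rw [Real.norm_eq_abs]
    exact hB x)

theorem dev {ρ w : Eu κ → ℝ} (hρ : Integrable ρ) (hw : Integrable w) (hle : ∀ x, ρ x ≤ w x)
    {g : Eu κ → ℝ} (hg : Continuous g) (hB : ∀ x, |g x| ≤ 1) :
    |(∫ x, g x * w x) - ∫ x, g x * ρ x| ≤ (∫ x, w x) - ∫ x, ρ x := by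
  rw [← integral_sub (int_mul hw hg hB) (int_mul hρ hg hB), ← integral_sub hw hρ]
  refine (abs_integral_le_integral_abs).trans ?_
  refine integral_mono_of_nonneg (Eventually.of_forall fun x => abs_nonneg _) (hw.sub hρ)
    (Eventually.of_forall fun x => ?_)
  simp only
  rw [← mul_sub, abs_mul, abs_of_nonneg (sub_nonneg.2 (hle x))]
  have := mul_le_mul_of_nonneg_right (hB x) (sub_nonneg.2 (hle x))
  rwa [one_mul] at this

theorem low {ρ w : Eu κ → ℝ} (hρ : Integrable ρ) (hw : Integrable w) (hle : ∀ x, ρ x ≤ w x)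
    {g : Eu κ → ℝ} {B : ℝ} (hg : Continuous g) (hB : ∀ x, |g x| ≤ B) (h0 : ∀ x, 0 ≤ g x) :
    ∫ x, g x * ρ x ≤ ∫ x, g x * w x :=
  integral_mono (int_mul hρ hg hB) (int_mul hw hg hB) fun x =>
    mul_le_mul_of_nonneg_left (hle x) (h0 x)

theorem wpo (hp : S_POT) (he : S_EXP) (hs : S_SUP) (hl : S_LIM) : S_WPO := by
  intro κ _ ρ hρ C hC hP δ hδ
  obtain ⟨M, c, hE⟩ := he κ ρ hρ
  have ht : Tendsto (fun A : ℝ => 1 / ∫ x, sc ρ A x) atTop (𝓝 1) := by
    have h1 := (hl κ ρ hρ).2.2 (fun _ => 1) 1 continuous_const (fun x => by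
      rw [abs_one, one_mul]
      nlinarith [sq_nonneg ‖x‖])
    simp only [one_mul, hρ.mass] at h1
    have h3 := (tendsto_const_nhds (x := (1 : ℝ))).div h1 one_ne_zero
    rwa [div_one] at h3
  have he := ht.eventually (lt_mem_nhds (show 1 - δ / 16 < 1 by linarith))
  filter_upwards [he, eventually_gt_atTop (0 : ℝ)] with A h1 hA
  intro v L hv hb hL hvar
  obtain ⟨hpos, hge, -, -, -⟩ := hs κ ρ hρ M c hE A hA
  obtain ⟨hcs, his⟩ := (hl κ ρ hρ).1 A hA
  have hi : Integrable (sc ρ A) := by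
    refine his.mono' hcs.aestronglyMeasurable (Eventually.of_forall fun x => ?_)
    rw [Real.norm_eq_abs, abs_of_pos (hpos x)]
    nlinarith [hpos x, mul_nonneg (sq_nonneg ‖x‖) (hpos x).le]
  have hρi := hρ.integrable
  have hgc : Continuous fun x => ‖fderiv ℝ v x‖ ^ 2 :=
    (hv.continuous_fderiv (by norm_num)).norm.pow 2
  have hL0 : 0 ≤ L := (norm_nonneg _).trans (hL 0)
  have hgb : ∀ x, |‖fderiv ℝ v x‖ ^ 2| ≤ L ^ 2 := by
    intro x
    rw [abs_of_nonneg (sq_nonneg _)]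
    exact pow_le_pow_left₀ (norm_nonneg _) (hL x) 2
  have hb2 : ∀ x, |v x ^ 2| ≤ 1 := fun x => by
    rw [abs_of_nonneg (sq_nonneg _), ← sq_abs]
    exact pow_le_one₀ (abs_nonneg _) (hb x)
  have a1 := dev hρi hi hge (hv.continuous.pow 2) hb2
  have a2 := dev hρi hi hge hv.continuous hb
  have a3 := low hρi hi hge hgc hgb (fun x => sq_nonneg _)
  rw [hρ.mass] at a1 a2
  have hm1 : |∫ x, v x * ρ x| ≤ 1 := by
    refine (abs_integral_le_integral_abs).trans ?_
    rw [← hρ.mass]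
    refine integral_mono_of_nonneg (Eventually.of_forall fun x => abs_nonneg _) hρi
      (Eventually.of_forall fun x => ?_)
    simp only
    rw [abs_mul, abs_of_nonneg (hρ.nonneg x)]
    have := mul_le_mul_of_nonneg_right (hb x) (hρ.nonneg x)
    rwa [one_mul] at this
  have hPv := hP v hv hb ⟨L, hL⟩
  rw [EU_eq hp hρ hA]
  rw [EU_eq hp hρ hA, EU_eq hp hρ hA] at hvar
  unfold Vr at hPv
  have hZ : 1 ≤ ∫ x, sc ρ A x := by
    have := (abs_nonneg _).trans a2
    linarith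
  set Z := ∫ x, sc ρ A x with hZdef
  set I2 := ∫ x, v x ^ 2 * sc ρ A x
  set I1 := ∫ x, v x * sc ρ A x
  set I3 := ∫ x, ‖fderiv ℝ v x‖ ^ 2 * sc ρ A x
  set m2 := ∫ x, v x ^ 2 * ρ x
  set m1 := ∫ x, v x * ρ x
  set m3 := ∫ x, ‖fderiv ℝ v x‖ ^ 2 * ρ x
  have hZ0 : 0 < Z := lt_of_lt_of_le one_pos hZ
  obtain ⟨p, hp'⟩ : ∃ p, p = 1 / Z := ⟨_, rfl⟩
  rw [← hp'] at h1
  have hp0 : 0 < p := by rw [hp']; positivity
  have hp1 : p ≤ 1 := by rw [hp']; exact (div_le_one hZ0).2 hZ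
  have hpZ : p * Z = 1 := by rw [hp']; field_simp
  obtain ⟨f1, hf1⟩ : ∃ f1, f1 = I1 / Z := ⟨_, rfl⟩
  obtain ⟨f2, hf2⟩ : ∃ f2, f2 = I2 / Z := ⟨_, rfl⟩
  have b1 : |f1 - p * m1| ≤ 1 - p := by
    have h2 : f1 - p * m1 = (I1 - m1) / Z := by
      rw [hf1, hp']; ring
    rw [h2, abs_div, abs_of_pos hZ0, div_le_iff₀ hZ0, sub_mul, one_mul, hpZ]
    exact a2
  have b2 : |f2 - p * m2| ≤ 1 - p := by
    have h2 : f2 - p * m2 = (I2 - m2) / Z := by
      rw [hf2, hp']; ring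
    rw [h2, abs_div, abs_of_pos hZ0, div_le_iff₀ hZ0, sub_mul, one_mul, hpZ]
    exact a1
  have b3 : p * m3 ≤ I3 / Z := by
    have h2 : p * m3 = m3 / Z := by
      rw [hp']; ring
    rw [h2]
    exact div_le_div_of_nonneg_right a3 hZ0.le
  rw [← hf1, ← hf2] at hvar
  refine le_trans ?_ b3
  have c1 := abs_le.1 b1
  have c2 := abs_le.1 b2
  have c4 := abs_le.1 hm1
  have d1 : m1 ^ 2 ≤ 1 := by nlinarith
  have d2 : f1 ^ 2 ≥ p ^ 2 * m1 ^ 2 - 2 * (1 - p) := by
    have k1 : |p * m1| ≤ 1 := by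
      rw [abs_mul, abs_of_pos hp0]
      nlinarith [abs_nonneg m1]
    have k2 : |(p * m1) * (f1 - p * m1)| ≤ 1 - p := by
      rw [abs_mul]
      calc |p * m1| * |f1 - p * m1| ≤ 1 * (1 - p) :=
            mul_le_mul k1 b1 (abs_nonneg _) zero_le_one
        _ = 1 - p := one_mul _
    have k3 := (abs_le.1 k2).1
    nlinarith [sq_nonneg (f1 - p * m1)]
  have d3 : p ^ 2 * m1 ^ 2 ≥ p * m1 ^ 2 - (1 - p) := by
    have : p * (1 - p) * m1 ^ 2 ≤ 1 * (1 - p) * 1 := by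
      apply mul_le_mul _ d1 (sq_nonneg _) (by linarith)
      exact mul_le_mul_of_nonneg_right hp1 (by linarith)
    nlinarith
  have d4 : 3 * δ / 4 ≤ p * (m2 - m1 ^ 2) := by nlinarith [c2.2]
  have d5 : p * (m2 - m1 ^ 2) ≤ C * (p * m3) := by
    have := mul_le_mul_of_nonneg_left hPv hp0.le
    linarith
  rw [div_le_iff₀ (by positivity)]
  nlinarith

theorem integral_mu {ρ : Eu κ → ℝ} (hρ : Den ρ) (g : Eu κ → ℝ) :
    ∫ x, g x ∂(volume.withDensity fun x => ENNReal.ofReal (ρ x)) = ∫ x, g x * ρ x := by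
  rw [integral_withDensity_eq_integral_toReal_smul hρ.meas.ennreal_ofReal
    (Eventually.of_forall fun x => ENNReal.ofReal_lt_top)]
  refine integral_congr_ae (Eventually.of_forall fun x => ?_)
  simp only [ENNReal.toReal_ofReal (hρ.nonneg x), smul_eq_mul]
  ring

theorem prob_mu {ρ : Eu κ → ℝ} (hρ : Den ρ) :
    IsProbabilityMeasure (volume.withDensity fun x : Eu κ => ENNReal.ofReal (ρ x)) := by
  refine ⟨?_⟩
  rw [withDensity_apply _ MeasurableSet.univ, Measure.restrict_univ,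
    ← ofReal_integral_eq_lintegral_ofReal hρ.integrable (Eventually.of_forall hρ.nonneg), hρ.mass,
    ENNReal.ofReal_one]

theorem led (hp : S_POT) (he : S_EXP) (hs : S_SUP) (hl : S_LIM) (hm : S_MNK) : S_LED := by
  intro κ _ ρ hρ C hC hP μ hμ S hS
  have hlm := lmu hp hl
  have hb := bdy hp hlm
  have hw := wpo hp he hs hl
  have hpr : IsProbabilityMeasure μ := by rw [hμ]; exact prob_mu hρ
  have hsq : 0 < Real.sqrt C := Real.sqrt_pos.2 hC
  refine hm κ μ (7 * Real.sqrt C) (by positivity) ?_ S hS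
  intro f L M hf hf2
  rw [hμ, integral_mu hρ, integral_mu hρ, integral_mu hρ]
  have hEV : 0 ≤ ∫ x, ‖fderiv ℝ f x‖ * ρ x :=
    integral_nonneg fun x => mul_nonneg (norm_nonneg _) (hρ.nonneg x)
  change Vr ρ f ≤ _
  rcases le_or_gt (Vr ρ f) 0 with h | h
  · exact h.trans (mul_nonneg (by positivity) hEV)
  · have hδ : 0 < Vr ρ f / 5 := by positivity
    have h1 := hw κ ρ hρ C hC hP (Vr ρ f / 5) hδ
    have h2 := hb κ ρ hρ (Vr ρ f / 5) (Vr ρ f / 5 / (2 * C)) hδ (by positivity) h1 f L M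
      hf hf2 (by linarith)
    set V := Vr ρ f
    set E := ∫ x, ‖fderiv ℝ f x‖ * ρ x
    have h3 : V * V ≤ 40 * C * E ^ 2 := by
      have e : 4 / (V / 5 / (2 * C)) * E ^ 2 = 40 * C * E ^ 2 / V := by
        field_simp
        ring
      rw [e, le_div_iff₀ h] at h2
      exact h2
    have h4 : V ^ 2 ≤ (7 * Real.sqrt C * E) ^ 2 := by
      have e : (7 * Real.sqrt C * E) ^ 2 = 49 * C * E ^ 2 := by
        rw [mul_pow, mul_pow, Real.sq_sqrt hC.le]
        ring
      rw [e]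
      nlinarith [mul_nonneg hC.le (sq_nonneg E)]
    exact (sq_le_sq₀ h.le (by positivity)).1 h4

end Q289.LD
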