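import Pool.Agent.Q289.LD.Evar
import Pool.Agent.Q289.OP.Fin

/-!
# The isoperimetric inequality for product measures conditioned on a partial order
-/

set_option autoImplicit false

namespace Q289.LD

open MeasureTheory Set Filter Topology
open scoped ENNReal InnerProductSpace
open Pool.Agent.W695.KH (Eu)
open Pool.Agent.Q188.SB (bdr)
open Pool.Agent.Q73.KL (LC1)
open Q289.OP (den om mu cc)

variable (ι : Type) [Fintype ι] [PartialOrder ι]

/-- the normalised density -/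
noncomputable def rho (φ : ℝ → ℝ) (x : Eu ι) : ℝ := (om ι φ univ).toReal⁻¹ * den φ fun i => x i

theorem den_nn {φ : ℝ → ℝ} (h : ∀ x, 0 ≤ φ x) (x : ι → ℝ) : 0 ≤ den φ x := by
  unfold den
  split_ifs
  · exact Finset.prod_nonneg fun i _ => h _
  · exact le_rfl

theorem den_meas {φ : ℝ → ℝ} (h : Measurable φ) : Measurable fun x : Eu ι => den φ fun i => x i := by
  unfold den
  refine Measurable.ite (Q289.OP.isClosed_mono ι).measurableSet ?_ measurable_const
  refine Finset.measurable_prod _ fun i _ => ?_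
  exact h.comp (by fun_prop)

theorem den_lc {φ : ℝ → ℝ} (h0 : ∀ x, 0 ≤ φ x)
    (h : ∀ x y t : ℝ, 0 < t → t < 1 → φ x ^ (1 - t) * φ y ^ t ≤ φ ((1 - t) * x + t * y))
    (x y : Eu ι) (t : ℝ) (ht : 0 < t) (ht1 : t < 1) :
    (den φ fun i => x i) ^ (1 - t) * (den φ fun i => y i) ^ t ≤
      den φ fun i => ((1 - t) • x + t • y) i := by
  by_cases hx : Monotone fun i => x i
  · by_cases hy : Monotone fun i => y i
    · have hxy : Monotone fun i => ((1 - t) • x + t • y) i := by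
        intro i j hij
        have h1 := hx hij
        have h2 := hy hij
        simp only [PiLp.add_apply, PiLp.smul_apply, smul_eq_mul]
        simp only at h1 h2
        have := mul_le_mul_of_nonneg_left h1 (show 0 ≤ 1 - t by linarith)
        have := mul_le_mul_of_nonneg_left h2 ht.le
        linarith
      unfold den
      rw [if_pos hx, if_pos hy, if_pos hxy, ← Real.finsetProd_rpow _ _ fun i _ => h0 _,
        ← Real.finsetProd_rpow _ _ fun i _ => h0 _, ← Finset.prod_mul_distrib]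
      refine Finset.prod_le_prod (fun i _ => mul_nonneg (Real.rpow_nonneg (h0 _) _)
        (Real.rpow_nonneg (h0 _) _)) fun i _ => ?_
      simp only [PiLp.add_apply, PiLp.smul_apply, smul_eq_mul]
      exact h _ _ _ ht ht1
    · have e : (den φ fun i => y i) = 0 := if_neg hy
      rw [e, Real.zero_rpow ht.ne', mul_zero]
      exact den_nn ι h0 _
  · have e : (den φ fun i => x i) = 0 := if_neg hx
    rw [e, Real.zero_rpow (by linarith : 1 - t ≠ 0), zero_mul]
    exact den_nn ι h0 _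

theorem om_fin {φ : ℝ → ℝ} (hp : IsProbabilityMeasure (mu ι φ)) :
    om ι φ univ ≠ 0 ∧ om ι φ univ ≠ ⊤ := by
  have h1 : mu ι φ univ = 1 := measure_univ
  unfold mu at h1
  rw [Measure.smul_apply, smul_eq_mul] at h1
  constructor
  · intro h
    rw [h, mul_zero] at h1
    exact zero_ne_one h1
  · intro h
    rw [h, ENNReal.inv_top, zero_mul] at h1
    exact zero_ne_one h1

theorem mu_rho {φ : ℝ → ℝ} (hm : Measurable φ) (hp : IsProbabilityMeasure (mu ι φ)) :
    mu ι φ = volume.withDensity fun x => ENNReal.ofReal (rho ι φ x) := by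
  obtain ⟨h0, h1⟩ := om_fin ι hp
  unfold mu
  conv_lhs => rw [show om ι φ = volume.withDensity fun x : Eu ι => ENNReal.ofReal (den φ fun i => x i)
    from rfl]
  rw [← withDensity_smul _ (den_meas ι hm).ennreal_ofReal]
  congr 1
  funext x
  rw [Pi.smul_apply, smul_eq_mul]
  unfold rho
  rw [ENNReal.ofReal_mul (inv_nonneg.2 ENNReal.toReal_nonneg),
    ENNReal.ofReal_inv_of_pos (ENNReal.toReal_pos h0 h1), ENNReal.ofReal_toReal h1]
  rfl

theorem den_rho {φ : ℝ → ℝ} (h : LC1 φ) (hp : IsProbabilityMeasure (mu ι φ)) : Den (rho ι φ) := by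
  obtain ⟨h0, h1⟩ := om_fin ι hp
  have hz : 0 < (om ι φ univ).toReal := ENNReal.toReal_pos h0 h1
  have hnn : ∀ x, 0 ≤ rho ι φ x := fun x => mul_nonneg (inv_nonneg.2 hz.le) (den_nn ι h.nonneg _)
  have hme : Measurable (rho ι φ) := (den_meas ι h.meas).const_mul _
  refine ⟨hnn, hme, ?_, ?_⟩
  · intro x y t ht ht1
    unfold rho
    have hi : 0 ≤ (om ι φ univ).toReal⁻¹ := inv_nonneg.2 hz.le
    rw [Real.mul_rpow hi (den_nn ι h.nonneg _), Real.mul_rpow hi (den_nn ι h.nonneg _)]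
    have e : (om ι φ univ).toReal⁻¹ ^ (1 - t) * (om ι φ univ).toReal⁻¹ ^ t =
        (om ι φ univ).toReal⁻¹ := by
      rw [← Real.rpow_add (inv_pos.2 hz), sub_add_cancel, Real.rpow_one]
    calc (om ι φ univ).toReal⁻¹ ^ (1 - t) * (den φ fun i => x i) ^ (1 - t) *
          ((om ι φ univ).toReal⁻¹ ^ t * (den φ fun i => y i) ^ t)
        = ((om ι φ univ).toReal⁻¹ ^ (1 - t) * (om ι φ univ).toReal⁻¹ ^ t) *
          ((den φ fun i => x i) ^ (1 - t) * (den φ fun i => y i) ^ t) := by ring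
      _ ≤ _ := by
          rw [e]
          exact mul_le_mul_of_nonneg_left (den_lc ι h.nonneg h.logc x y t ht ht1) hi
  · have h2 : ∫⁻ x, ENNReal.ofReal (rho ι φ x) = 1 := by
      have h3 : mu ι φ univ = 1 := measure_univ
      rw [mu_rho ι h.meas hp, withDensity_apply _ MeasurableSet.univ, Measure.restrict_univ] at h3
      exact h3
    rw [integral_eq_lintegral_of_nonneg_ae (Eventually.of_forall hnn) hme.aestronglyMeasurable, h2,
      ENNReal.toReal_one]

omit [PartialOrder ι] in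
theorem min_le' {μ : Measure (Eu ι)} [IsProbabilityMeasure μ] {S : Set (Eu ι)} (hS : MeasurableSet S) :
    min (μ S) (μ Sᶜ) ≤ 2 * (μ S * (1 - μ S)) := by
  rw [prob_compl_eq_one_sub hS]
  exact Q289.OP.min_le_two_mul prob_le_one

/-- the inequality from a Poincare constant of `φ` -/
theorem iso1 (hL : S_LED) {φ : ℝ → ℝ} (h : LC1 φ) {C : ℝ} (hC : 0 < C) (hP : Q289.OP.Poin1 φ C)
    {S : Set (Eu ι)} (hS : MeasurableSet S) :
    mu ι φ S * (1 - mu ι φ S) ≤ ENNReal.ofReal (7 * Real.sqrt C) * bdr (mu ι φ) S := by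
  obtain ⟨h1, -, -⟩ := Q237.OP.Lc1.onedlc φ h
  obtain ⟨hp, h4⟩ := Q289.OP.tS ι φ C h1 hC hP
  exact led_evar hL (den_rho ι h hp) hC (mu_rho ι h.meas hp) (fun f hf _ => h4 f hf) hS

/-- the constant `cc` is controlled by the variances -/
theorem cc_var [Nonempty ι] (hl : S_LIM) {φ : ℝ → ℝ} (h : LC1 φ) {s : ℝ} (hs : 0 < s)
    (hcov : ∀ θ : Eu ι, ‖θ‖ = 1 → ProbabilityTheory.variance (fun x => ⟪x, θ⟫_ℝ) (mu ι φ) ≤ s) :
    cc φ ≤ 64 * s := by
    obtain ⟨h1, h2, h3⟩ := Q237.OP.Lc1.onedlc φ h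
    obtain ⟨hp, -⟩ := Q289.OP.tS ι φ _ h1 h2 h3
    have hv := Q237.OP.Var.var Pool.Agent.Q25.OP.sym
    refine Q289.OP.cc_le hv ι h hs.le fun θ => ?_
    have hL2 := memLp_lin hl (den_rho ι h hp) (mu_rho ι h.meas hp) θ
    rw [← hL2.ofReal_variance_eq]
    refine ENNReal.ofReal_le_ofReal ?_
    by_cases h0 : θ = 0
    · subst h0
      have : (fun x : Eu ι => ⟪(0 : Eu ι), x⟫_ℝ) = fun _ => 0 := by
        funext x; simp
      rw [this, norm_zero]
      have e0 : ProbabilityTheory.variance (fun _ : Eu ι => (0 : ℝ)) (mu ι φ) = 0 :=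
        ProbabilityTheory.variance_zero _
      rw [e0]
      simp
    have hn0 : 0 < ‖θ‖ := norm_pos_iff.2 h0
    have h5 := hcov (‖θ‖⁻¹ • θ) (by rw [norm_smul, norm_inv, norm_norm, inv_mul_cancel₀ hn0.ne'])
    have e1 : (fun x : Eu ι => ⟪θ, x⟫_ℝ) = fun x => ‖θ‖ * ⟪x, ‖θ‖⁻¹ • θ⟫_ℝ := by
      funext x
      rw [real_inner_smul_right, ← mul_assoc, mul_inv_cancel₀ hn0.ne', one_mul, real_inner_comm]
    rw [e1, ProbabilityTheory.variance_const_mul, mul_comm s]
    exact mul_le_mul_of_nonneg_left h5 (sq_nonneg _)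

/-- the inequality with the covariance -/
theorem iso2 [Nonempty ι] (hL : S_LED) (hl : S_LIM) {φ : ℝ → ℝ} (h : LC1 φ) {s : ℝ} (hs : 0 < s)
    (hcov : ∀ θ : Eu ι, ‖θ‖ = 1 → ProbabilityTheory.variance (fun x => ⟪x, θ⟫_ℝ) (mu ι φ) ≤ s)
    {S : Set (Eu ι)} (hS : MeasurableSet S) :
    mu ι φ S * (1 - mu ι φ S) ≤ ENNReal.ofReal (56 * Real.sqrt s) * bdr (mu ι φ) S := by
  obtain ⟨h1, h2, h3⟩ := Q237.OP.Lc1.onedlc φ h
  have hcc : cc φ ≤ 64 * s := cc_var ι hl h hs hcov
  refine (iso1 ι hL h h2 h3 hS).trans (mul_le_mul_left ?_ _)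
  refine ENNReal.ofReal_le_ofReal ?_
  change 7 * Real.sqrt (cc φ) ≤ _
  have h5 : Real.sqrt (cc φ) ≤ 8 * Real.sqrt s := by
    rw [show (8 : ℝ) = Real.sqrt 64 by
      rw [show (64 : ℝ) = 8 ^ 2 by norm_num, Real.sqrt_sq (by norm_num)],
      ← Real.sqrt_mul (by norm_num)]
    exact Real.sqrt_le_sqrt hcc
  linarith

/-- the exact form of the frozen statement -/
theorem iso3 [Nonempty ι] (hL : S_LED) (hl : S_LIM) {φ : ℝ → ℝ} (h : LC1 φ) {s : ℝ} (hs : 0 < s)
    (hcov : ∀ θ : Eu ι, ‖θ‖ = 1 → ProbabilityTheory.variance (fun x => ⟪x, θ⟫_ℝ) (mu ι φ) ≤ s)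
    {S : Set (Eu ι)} (hS : MeasurableSet S) :
    ENNReal.ofReal (1 / 112 / Real.sqrt s) * min (mu ι φ S) (mu ι φ Sᶜ) ≤ bdr (mu ι φ) S := by
  obtain ⟨h1, h2, h3⟩ := Q237.OP.Lc1.onedlc φ h
  obtain ⟨hp, -⟩ := Q289.OP.tS ι φ _ h1 h2 h3
  have hsq : 0 < Real.sqrt s := Real.sqrt_pos.2 hs
  calc ENNReal.ofReal (1 / 112 / Real.sqrt s) * min (mu ι φ S) (mu ι φ Sᶜ)
      ≤ ENNReal.ofReal (1 / 112 / Real.sqrt s) *
          (2 * (ENNReal.ofReal (56 * Real.sqrt s) * bdr (mu ι φ) S)) :=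
        mul_le_mul_right ((min_le' ι hS).trans (mul_le_mul_right (iso2 ι hL hl h hs hcov hS) _)) _
    _ = (ENNReal.ofReal (1 / 112 / Real.sqrt s) * (2 * ENNReal.ofReal (56 * Real.sqrt s))) *
          bdr (mu ι φ) S := by ring
    _ = bdr (mu ι φ) S := by
        rw [show (2 : ℝ≥0∞) = ENNReal.ofReal 2 by norm_num, ← ENNReal.ofReal_mul (by norm_num),
          ← ENNReal.ofReal_mul (by positivity)]
        have : 1 / 112 / Real.sqrt s * (2 * (56 * Real.sqrt s)) = 1 := by field_simp; norm_num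
        rw [this, ENNReal.ofReal_one, one_mul]

/-- the halfspace form -/
theorem iso4 [Nonempty ι] (hL : S_LED) (hl : S_LIM) {φ : ℝ → ℝ} (h : LC1 φ) (t : ℝ≥0∞)
    (H : ∀ (u : Eu ι) (r : ℝ), u ≠ 0 →
      t * min (mu ι φ {x | ⟪u, x⟫_ℝ ≤ r}) (mu ι φ {x | ⟪u, x⟫_ℝ ≤ r}ᶜ) ≤
        bdr (mu ι φ) {x | ⟪u, x⟫_ℝ ≤ r})
    {S : Set (Eu ι)} (hS : MeasurableSet S) :
    ENNReal.ofReal (1 / 400) * t * min (mu ι φ S) (mu ι φ Sᶜ) ≤ bdr (mu ι φ) S := by
  obtain ⟨h1, h2, h3⟩ := Q237.OP.Lc1.onedlc φ h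
  obtain ⟨hp, -⟩ := Q289.OP.tS ι φ _ h1 h2 h3
  have hac : mu ι φ ≪ volume := by
    rw [mu_rho ι h.meas hp]
    exact withDensity_absolutelyContinuous _ _
  set X := min (mu ι φ S) (mu ι φ Sᶜ) with hX
  set Bd := bdr (mu ι φ) S with hBd
  have hX1 : X ≤ 1 := (min_le_left _ _).trans prob_le_one
  have key : ∀ τ : ℝ, 0 < τ → ENNReal.ofReal τ ≤ t →
      ENNReal.ofReal (1 / 400) * ENNReal.ofReal τ * X ≤ Bd := by
    intro τ hτ hτt
    have h5 := iso3 ι hL hl h (s := 8 / τ ^ 2) (by positivity) (fun θ hθ => by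
      have h6 := (half_gen hac hτ (fun u r hu => by
        have h7 := H u r hu
        rw [prob_compl_eq_one_sub (measurableSet_le (by fun_prop) measurable_const)] at h7
        exact (mul_le_mul' hτt le_rfl).trans h7) hθ).2
      have e2 : (fun x : Eu ι => ⟪x, θ⟫_ℝ) = fun x => ⟪θ, x⟫_ℝ :=
        funext fun x => real_inner_comm _ _
      rw [e2]
      exact h6) hS
    refine le_trans (mul_le_mul_left ?_ _) h5
    rw [← ENNReal.ofReal_mul (by norm_num)]
    refine ENNReal.ofReal_le_ofReal ?_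
    rw [Real.sqrt_div (by norm_num), Real.sqrt_sq hτ.le, div_div_eq_mul_div, le_div_iff₀ (by positivity)]
    have e2 : Real.sqrt 8 ≤ 3 := by
      rw [Real.sqrt_le_left (by norm_num)]
      norm_num
    nlinarith
  by_cases htt : t = ⊤
  · subst htt
    by_cases hm : X = 0
    · rw [hm, mul_zero]
      exact bot_le
    have hmt : X ≠ ⊤ := ne_top_of_le_ne_top ENNReal.one_ne_top hX1
    have hm0 : 0 < X.toReal := ENNReal.toReal_pos hm hmt
    have h2 : Bd = ⊤ := by
      refine ENNReal.eq_top_of_forall_nnreal_le fun r => ?_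
      have h3 := key (400 * (r + 1) / X.toReal) (by positivity) le_top
      rw [← ENNReal.ofReal_toReal hmt, ← ENNReal.ofReal_mul (by norm_num),
        ← ENNReal.ofReal_mul (by positivity), ENNReal.toReal_ofReal hm0.le] at h3
      refine le_trans ?_ h3
      rw [← ENNReal.ofReal_coe_nnreal]
      refine ENNReal.ofReal_le_ofReal ?_
      have : 1 / 400 * (400 * ((r : ℝ) + 1) / X.toReal) * X.toReal = r + 1 := by field_simp
      rw [this]
      linarith
    rw [h2]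
    exact le_top
  · by_cases h0 : t = 0
    · rw [h0, mul_zero, zero_mul]
      exact bot_le
    · have h4 := key t.toReal (ENNReal.toReal_pos h0 htt) (ENNReal.ofReal_toReal htt).le
      rwa [ENNReal.ofReal_toReal htt] at h4

end Q289.LD
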