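import Pool.Agent.W695.KH.Defs

/-!
# From Poincare to the isoperimetric inequality for log-concave measures: statements

Project LD of helper289: for a log-concave probability density `ρ` on `ℝⁿ` with Poincare constant `C` the
measure `μ` with density `ρ` satisfies `μ(S) (1 - μ(S)) ≤ 7 √C μ⁺(S)` for all measurable `S`. The starting
files (modules `KH`, statement `S_core` of `Pool.Agent.W695.KH.Defs`) prove this for potentials with a
Lipschitz gradient; here the density is approximated by its sup-convolutions with Gaussians.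
-/

set_option autoImplicit false

namespace Q289.LD

open MeasureTheory Set Filter Topology
open scoped ENNReal InnerProductSpace
open Pool.Agent.W695.KH (Eu EU Sm Pot WPo)

/-- log-concave probability densities -/
structure Den {κ : Type} [Fintype κ] (ρ : Eu κ → ℝ) : Prop where
  nonneg : ∀ x, 0 ≤ ρ x
  meas : Measurable ρ
  lc : ∀ x y : Eu κ, ∀ t : ℝ, 0 < t → t < 1 → ρ x ^ (1 - t) * ρ y ^ t ≤ ρ ((1 - t) • x + t • y)
  mass : ∫ x, ρ x = 1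

/-- exponential bound -/
def Ex {κ : Type} [Fintype κ] (ρ : Eu κ → ℝ) (M c : ℝ) : Prop :=
  0 < M ∧ 0 < c ∧ ∀ x, ρ x ≤ M * Real.exp (-(c * ‖x‖))

/-- sup-convolution with a Gaussian -/
noncomputable def sc {κ : Type} [Fintype κ] (ρ : Eu κ → ℝ) (A : ℝ) (x : Eu κ) : ℝ :=
  ⨆ y, ρ y * Real.exp (-(A / 2 * ‖x - y‖ ^ 2))

/-- normalised potential -/
noncomputable def Us {κ : Type} [Fintype κ] (ρ : Eu κ → ℝ) (A : ℝ) (x : Eu κ) : ℝ :=
  -Real.log (sc ρ A x) + Real.log (∫ y, sc ρ A y)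

/-- variance -/
noncomputable def Vr {κ : Type} [Fintype κ] (ρ f : Eu κ → ℝ) : ℝ :=
  (∫ x, f x ^ 2 * ρ x) - (∫ x, f x * ρ x) ^ 2

/-- JOB EXP. Log-concave densities decay exponentially.
Proof. See `Pool.Agent.Y506.PV.int_moment` in `Pool/Agent/Y506/PV/Mom.lean` (there for `Eu (Fin n)`; the
lemmas `lev_convex`, `conv_bdd` and the proof of `hdec` work word for word for `Eu κ`, copy them): there are
`t, δ > 0`, `x0` with `ρ ≥ t` on the ball `B(x0, δ)`, and `R > 0` with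
`ρ x ≤ t exp(-‖x - x0‖ / (2R))` for `‖x - x0‖ > 2R`. Bounded everywhere: for every `x` and `z ∈ B(x0, δ)` one has
`ρ((x + z)/2) ≥ √(ρ x) √t`, so `1 = ∫ ρ ≥ √(t ρ x) vol B(0, δ/2)` (the set `(x + B(x0, δ))/2` is a ball of
radius `δ/2`). Combine. If `κ` is empty all is trivial (`‖x‖ = 0`). -/
def S_EXP : Prop := ∀ (κ : Type) [Fintype κ] (ρ : Eu κ → ℝ), Den ρ → ∃ M c : ℝ, Ex ρ M c

/-- JOB CAE. A log-concave density is continuous at almost all points.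
Proof. `S = {x | 0 < ρ x}` is convex (from `lc`). If `x ∈ interior S` then `-log ρ` is convex on
`interior S` (open convex), so continuous there (`ConvexOn.continuousOn` for open sets in finite dimension or
`ConvexOn.continuousOn_interior`), hence `ρ = exp(log ρ)` is continuous at `x`. If `x ∉ closure S` then
`ρ = 0` near `x`. The frontier of a convex set is a null set (`Convex.addHaar_frontier`). -/
def S_CAE : Prop := ∀ (κ : Type) [Fintype κ] (ρ : Eu κ → ℝ), Den ρ → ∀ᵐ x, ContinuousAt ρ x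

/-- JOB SUP. Elementary properties of the sup-convolution.
Proof. The family is bounded above by `M` (`ρ ≤ M exp(..) ≤ M`), so `le_ciSup`, `ciSup_le` apply.
(1) positive: `∫ ρ = 1` gives a point `y` with `ρ y > 0`. (2) take `y = x`. (3) for every `y`:
`-c ‖y‖ - A/2 ‖x - y‖² ≤ -c ‖x‖ + c ‖x - y‖ - A/2 ‖x - y‖² ≤ -c ‖x‖ + c²/(2A)`.
(4) split `‖x - y‖ < δ` or not. (5) `A ≤ A'` makes the Gaussian smaller. -/
def S_SUP : Prop := ∀ (κ : Type) [Fintype κ] (ρ : Eu κ → ℝ), Den ρ → ∀ M c : ℝ, Ex ρ M c →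
  ∀ A : ℝ, 0 < A →
  (∀ x, 0 < sc ρ A x) ∧ (∀ x, ρ x ≤ sc ρ A x) ∧
  (∀ x, sc ρ A x ≤ M * Real.exp (c ^ 2 / (2 * A)) * Real.exp (-(c * ‖x‖))) ∧
  (∀ (x : Eu κ) (δ m : ℝ), 0 < δ → 0 ≤ m → (∀ y, ‖x - y‖ < δ → ρ y ≤ m) →
    sc ρ A x ≤ max m (M * Real.exp (-(A / 2 * δ ^ 2)))) ∧
  (∀ A' : ℝ, A ≤ A' → ∀ x, sc ρ A' x ≤ sc ρ A x)

/-- JOB CVX. The potential of the sup-convolution is convex and semiconcave.
Proof. (i) For `x, x'`, `0 < t < 1` and all `y, y'` one has with `x_t = (1-t) x + t x'`,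
`y_t = (1-t) y + t y'`: `sc ρ A x_t ≥ ρ(y_t) exp(-A/2 ‖x_t - y_t‖²) ≥
(ρ y exp(-A/2 ‖x-y‖²))^(1-t) (ρ y' exp(-A/2 ‖x'-y'‖²))^t` by `lc` and convexity of `‖·‖²`. Take the
supremum over `y'`, then over `y` (`r ↦ r^t` is increasing and continuous; or: if
`a < sc ρ A x`, `a' < sc ρ A x'`, `0 < a, a'`, choose `y, y'`), and then logarithms. All values are positive
(`S_SUP`). (ii) For `y` with `ρ y > 0`: `A/2 ‖x‖² + log(ρ y exp(-A/2 ‖x - y‖²)) =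
log(ρ y) - A/2 ‖y‖² + A ⟪x, y⟫` is affine in `x`, and `A/2 ‖x‖² + log(sc ρ A x)` is the supremum of these
affine functions over `y` with `ρ y > 0` (for `x_t` take `y` with value close to the supremum; directly: for
every `a < sc ρ A x_t`, `0 < a`, there is `y` with `a < ρ y exp(..)`, and `log a + A/2 ‖x_t‖² ≤` affine
function of `y` at `x_t` = convex combination of its values at `x, x'`, each at most
`A/2 ‖x‖² + log(sc ρ A x)`; let `a → sc ρ A x_t`). -/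
def S_CVX : Prop := ∀ (κ : Type) [Fintype κ] (ρ : Eu κ → ℝ), Den ρ → ∀ M c : ℝ, Ex ρ M c →
  ∀ A : ℝ, 0 < A →
  ConvexOn ℝ univ (fun x => -Real.log (sc ρ A x)) ∧
  ConvexOn ℝ univ (fun x => A / 2 * ‖x‖ ^ 2 - -Real.log (sc ρ A x))

/-- JOB SUB. Convex and semiconcave functions have a Lipschitz gradient and nonexpansive gradient steps.
Proof. (a) A convex function `W` on `Eu κ` has a subgradient at each point `x`: a vector `p` with
`W y ≥ W x + ⟪p, y - x⟫` (`W` is continuous, `ConvexOn.continuousOn`; separate the point `(x, W x)` from the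
open convex set `{(y, s) | W y < s}` by `geometric_hahn_banach_open_point` and write the functional as
`⟪q, y⟫ + r s`; `r < 0`; Riesz `InnerProductSpace.toDual`). (b) Apply this to `W` (vector `p`) and to
`G = A/2 ‖·‖² - W` (vector `q`): `W y ≤ W x + ⟪A x - q, y - x⟫ + A/2 ‖y - x‖²`, hence
`⟪p - (A x - q), v⟫ ≤ A/2 ‖v‖²` for all `v`, so `p = A x - q` (take `v = s (p - (A x - q))`, `s → 0`).
Put `b x = p`: `0 ≤ W y - W x - ⟪b x, y - x⟫ ≤ A/2 ‖y - x‖²` for all `y`, which gives the derivative.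
(c) Cocoercivity: with `z = y - A⁻¹ (b y - b x)`: `W x + ⟪b x, z - x⟫ ≤ W z ≤ W y + ⟪b y, z - y⟫ +
A/2 ‖z - y‖²` gives `W y ≥ W x + ⟪b x, y - x⟫ + ‖b x - b y‖²/(2A)`; add the same with `x, y` exchanged:
`⟪b x - b y, x - y⟫ ≥ ‖b x - b y‖²/A`. So `‖b x - b y‖ ≤ A ‖x - y‖` by Cauchy-Schwarz and
`‖(x - y) - h (b x - b y)‖² = ‖x - y‖² - 2h ⟪..⟫ + h² ‖b x - b y‖² ≤ ‖x - y‖²` for `0 ≤ h`, `h A ≤ 1`. -/
def S_SUB : Prop := ∀ (κ : Type) [Fintype κ] (W : Eu κ → ℝ) (A : ℝ), 0 < A → ConvexOn ℝ univ W →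
  ConvexOn ℝ univ (fun x => A / 2 * ‖x‖ ^ 2 - W x) → ∃ b : Eu κ → Eu κ,
  (∀ x, HasFDerivAt W (innerSL ℝ (b x)) x) ∧ (∀ x y, ‖b x - b y‖ ≤ A * ‖x - y‖) ∧
  ∀ h : ℝ, 0 ≤ h → h * A ≤ 1 → ∀ x y, ‖(x - h • b x) - (y - h • b y)‖ ≤ ‖x - y‖

/-- JOB LIM. Limits of integrals, and domination.
Proof. Let `ρ ≤ M exp(-c‖x‖)` (`S_EXP`). For `A ≥ 1` one has `0 ≤ sc ρ A x ≤ M' exp(-c ‖x‖)`,
`M' = M exp(c²/2)` (`S_SUP` (3)), and `(1 + ‖x‖²) exp(-c‖x‖)` is integrable. At the points of continuity of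
`ρ`, i.e. almost everywhere (`S_CAE`), `sc ρ A x → ρ x`: `ρ x ≤ sc ρ A x`, and for `ε > 0` choose `δ` with
`ρ y ≤ ρ x + ε` for `‖x - y‖ < δ`; by `S_SUP` (4) `sc ρ A x ≤ max (ρ x + ε) (M exp(-A δ²/2))`. `sc ρ A` is
continuous (`S_CVX`: convex functions are continuous), so measurable. Dominated convergence along `atTop`
(`tendsto_integral_filter_of_dominated_convergence`). -/
def S_LIM : Prop := ∀ (κ : Type) [Fintype κ] (ρ : Eu κ → ℝ), Den ρ →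
  (∀ A : ℝ, 0 < A → Continuous (sc ρ A) ∧ Integrable (fun x => (1 + ‖x‖ ^ 2) * sc ρ A x)) ∧
  Integrable (fun x => (1 + ‖x‖ ^ 2) * ρ x) ∧
  ∀ (g : Eu κ → ℝ) (B : ℝ), Continuous g → (∀ x, |g x| ≤ B * (1 + ‖x‖ ^ 2)) →
    Tendsto (fun A : ℝ => ∫ x, g x * sc ρ A x) atTop (𝓝 (∫ x, g x * ρ x))

/-- JOB MNK. From smooth functions to sets, for any probability measure.
Proof. Copy `Pool/Agent/W800/KH/Mink.lean` (`key` and `t_mink`; the lemmas `exists_fun`, `var_lower` can be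
used from there): the proof uses the body `D` only through the hypothesis `H` and through `EV D v = ∫ v dμ`. -/
def S_MNK : Prop := ∀ (κ : Type) [Fintype κ] (μ : Measure (Eu κ)) [IsProbabilityMeasure μ] (B : ℝ), 0 < B →
  (∀ (f : Eu κ → ℝ) (L M : ℝ), Sm f L M → (∀ x, |f x| ≤ 1 / 2) →
    (∫ x, f x ^ 2 ∂μ) - (∫ x, f x ∂μ) ^ 2 ≤ B * ∫ x, ‖fderiv ℝ f x‖ ∂μ) →
  ∀ S : Set (Eu κ), MeasurableSet S → μ S * (1 - μ S) ≤ ENNReal.ofReal B *
    liminf (fun ε : ℝ => (μ (Metric.thickening ε S) - μ S) / ENNReal.ofReal ε) (𝓝[>] 0)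

/-- the potentials (helper289) -/
def S_POT : Prop := ∀ (κ : Type) [Fintype κ] (ρ : Eu κ → ℝ), Den ρ → ∀ A : ℝ, 0 < A →
  (∃ b : Eu κ → Eu κ, Pot (Us ρ A) b A) ∧ (∀ x, Real.exp (-Us ρ A x) = sc ρ A x / ∫ y, sc ρ A y) ∧
  0 < ∫ y, sc ρ A y

/-- limits for the potentials (helper289) -/
def S_LMU : Prop := ∀ (κ : Type) [Fintype κ] (ρ : Eu κ → ℝ), Den ρ →
  ∀ (g : Eu κ → ℝ) (B : ℝ), Continuous g → (∀ x, |g x| ≤ B * (1 + ‖x‖ ^ 2)) →
    Tendsto (fun A : ℝ => EU (Us ρ A) g) atTop (𝓝 (∫ x, g x * ρ x))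

/-- the core for `ρ` (helper289) -/
def S_BDY : Prop := ∀ (κ : Type) [Fintype κ] (ρ : Eu κ → ℝ), Den ρ → ∀ δ c : ℝ, 0 < δ → 0 < c →
  (∀ᶠ A in atTop, WPo (Us ρ A) δ c) →
  ∀ (f : Eu κ → ℝ) (L M : ℝ), Sm f L M → (∀ x, |f x| ≤ 1 / 2) → 4 * δ < Vr ρ f →
  Vr ρ f ≤ 4 / c * (∫ x, ‖fderiv ℝ f x‖ * ρ x) ^ 2

/-- weak Poincare inequality of the approximations (helper289) -/
def S_WPO : Prop := ∀ (κ : Type) [Fintype κ] (ρ : Eu κ → ℝ), Den ρ → ∀ C : ℝ, 0 < C →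
  (∀ f : Eu κ → ℝ, ContDiff ℝ 1 f → (∀ x, |f x| ≤ 1) → (∃ L, ∀ x, ‖fderiv ℝ f x‖ ≤ L) →
    Vr ρ f ≤ C * ∫ x, ‖fderiv ℝ f x‖ ^ 2 * ρ x) →
  ∀ δ : ℝ, 0 < δ → ∀ᶠ A in atTop, WPo (Us ρ A) δ (δ / (2 * C))

/-- **Poincare implies the isoperimetric inequality** (helper289) -/
def S_LED : Prop := ∀ (κ : Type) [Fintype κ] (ρ : Eu κ → ℝ), Den ρ → ∀ C : ℝ, 0 < C →
  (∀ f : Eu κ → ℝ, ContDiff ℝ 1 f → (∀ x, |f x| ≤ 1) → (∃ L, ∀ x, ‖fderiv ℝ f x‖ ≤ L) →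
    Vr ρ f ≤ C * ∫ x, ‖fderiv ℝ f x‖ ^ 2 * ρ x) →
  ∀ μ : Measure (Eu κ), μ = volume.withDensity (fun x => ENNReal.ofReal (ρ x)) →
  ∀ S : Set (Eu κ), MeasurableSet S → μ S * (1 - μ S) ≤ ENNReal.ofReal (7 * Real.sqrt C) *
    liminf (fun ε : ℝ => (μ (Metric.thickening ε S) - μ S) / ENNReal.ofReal ε) (𝓝[>] 0)

end Q289.LD
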